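import Mathlib

/-!
Transition-minimal NFAs may need many more states than state-minimal ones: over a binary
alphabet the ratio `T(L) / nsc(L)` is unbounded.
-/

namespace Pool.Agent.Results.MP_48fb2a_lc.UnboundedRatio

/-- An NFA over the alphabet `A` with state set `Q`: a single start state, a set of accepting
states, and a set of transitions; no `ε`-transitions. -/
structure Nfa (A Q : Type) where
  start : Q
  acc : Set Q
  δ : Set (Q × A × Q)

variable {A Q : Type}

/-- There is a path labelled by the word from the first state to the second. -/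
def Nfa.Run (M : Nfa A Q) : Q → List A → Q → Prop
  | q, [], q' => q = q'
  | q, a :: w, q' => ∃ r, (q, a, r) ∈ M.δ ∧ M.Run r w q'

/-- The recognized language. -/
def Nfa.lang (M : Nfa A Q) : Set (List A) := {w | ∃ f ∈ M.acc, M.Run M.start w f}

/-- Some NFA (with a finite set of states) with `k` states and `t` transitions recognizes
`L`. -/
def Rec (L : Set (List A)) (k t : ℕ) : Prop :=
  ∃ (Q : Type) (_ : Finite Q) (M : Nfa A Q), M.lang = L ∧ Nat.card Q = k ∧ M.δ.ncard = t

/-- The least number of states of an NFA for `L`. -/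
noncomputable def nsc (L : Set (List A)) : ℕ := sInf {k | ∃ t, Rec L k t}

/-- The least number of transitions of an NFA for `L`. -/
noncomputable def tc (L : Set (List A)) : ℕ := sInf {t | ∃ k, Rec L k t}

/-- The least number of states of a transition-minimal NFA for `L`. -/
noncomputable def T (L : Set (List A)) : ℕ := sInf {k | Rec L k (tc L)}

/-! ### The lower bound -/

/-- words leading to a state -/
def Nfa.X (M : Nfa A Q) (z : Q) : Set (List A) := {x | M.Run M.start x z}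

/-- words accepted from a state -/
def Nfa.Y (M : Nfa A Q) (z : Q) : Set (List A) := {y | ∃ f ∈ M.acc, M.Run z y f}

theorem run_append (M : Nfa A Q) {x y : List A} {p q r : Q} (h1 : M.Run p x q)
    (h2 : M.Run q y r) : M.Run p (x ++ y) r := by
  induction x generalizing p with
  | nil => cases h1; exact h2
  | cons a x ih =>
    obtain ⟨s, hs, h⟩ := h1
    exact ⟨s, hs, ih h⟩

theorem XY (M : Nfa A Q) {z : Q} {x y : List A} (hx : x ∈ M.X z) (hy : y ∈ M.Y z) :
    x ++ y ∈ M.lang := by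
  obtain ⟨f, hf, h⟩ := hy
  exact ⟨f, hf, run_append M hx h⟩

theorem key (M : Nfa A Q) (ℓ : ℕ) (hlen : ∀ w ∈ M.lang, w.length = ℓ) :
    ∀ (y x : List A) (z : Q), x ∈ M.X z → y ∈ M.Y z → (M.Y z).Nontrivial →
      (∃ z, (M.X z).Nontrivial ∧ (M.Y z).Nontrivial ∧ ∃ x' ∈ M.X z, ∃ y' ∈ M.Y z,
        x ++ y = x' ++ y') ∨
      ∃ e ∈ M.δ, ∃ x' y', M.X e.1 = {x'} ∧ M.Y e.2.2 = {y'} ∧ x ++ y = x' ++ e.2.1 :: y' := by
  intro y
  induction y with
  | nil =>
    intro x z hx hy hn
    obtain ⟨y', hy', hne⟩ := hn.exists_ne []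
    have h1 := hlen _ (XY M hx hy)
    have h2 := hlen _ (XY M hx hy')
    rw [List.length_append] at h1 h2
    exact absurd (List.length_eq_zero_iff.1 (by simp at h1; omega)) hne
  | cons a y ih =>
    intro x z hx hy hn
    by_cases hX : (M.X z).Nontrivial
    · exact Or.inl ⟨z, hX, hn, x, hx, a :: y, hy, rfl⟩
    · obtain ⟨f, hf, s, hs, hr⟩ := hy
      have hys : y ∈ M.Y s := ⟨f, hf, hr⟩
      have hxs : x ++ [a] ∈ M.X s := run_append M hx ⟨s, hs, rfl⟩
      by_cases hY : (M.Y s).Nontrivial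
      · have := ih (x ++ [a]) s hxs hys hY
        rw [List.append_assoc] at this
        exact this
      · refine Or.inr ⟨(z, a, s), hs, x, y, ?_, ?_, rfl⟩
        · exact (Set.not_nontrivial_iff.1 hX).eq_singleton_of_mem hx
        · exact (Set.not_nontrivial_iff.1 hY).eq_singleton_of_mem hys

theorem lower [Finite A] [Finite Q] (M : Nfa A Q) (L : Finset (List A))
    (hL : M.lang = L) (h2 : 2 ≤ L.card) (ℓ : ℕ) (hlen : ∀ w ∈ L, w.length = ℓ) (K : ℕ)
    (hK : ∀ X Y : Set (List A), X.Nontrivial → Y.Nontrivial →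
      (∀ x ∈ X, ∀ y ∈ Y, x ++ y ∈ L) → ∀ S : Finset (List A),
      (∀ w ∈ S, ∃ x ∈ X, ∃ y ∈ Y, w = x ++ y) → S.card ≤ K) :
    L.card ≤ M.δ.ncard + K * Nat.card Q := by
  classical
  have := Fintype.ofFinite Q
  have := Fintype.ofFinite A
  have hlen' : ∀ w ∈ M.lang, w.length = ℓ := by
    intro w hw
    rw [hL] at hw
    exact hlen w (by exact_mod_cast hw)
  have hstart : M.Y M.start = L := hL
  have hnt : (M.Y M.start).Nontrivial := by
    rw [hstart]
    exact Finset.one_lt_card_iff_nontrivial.1 h2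
  let W : Q → Finset (List A) := fun z => L.filter fun w => (M.X z).Nontrivial ∧
    (M.Y z).Nontrivial ∧ ∃ x' ∈ M.X z, ∃ y' ∈ M.Y z, w = x' ++ y'
  let f : Q × A × Q → List A := fun e =>
    if h : ∃ w, ∃ x' y', M.X e.1 = {x'} ∧ M.Y e.2.2 = {y'} ∧ w = x' ++ e.2.1 :: y'
    then h.choose else []
  have hsub : L ⊆ (Finset.univ.biUnion W) ∪ (M.δ.toFinset.image f) := by
    intro w hw
    have hw' : w ∈ M.Y M.start := by rw [hstart]; exact_mod_cast hw
    have h0 : ([] : List A) ∈ M.X M.start := rfl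
    rcases key M ℓ hlen' w [] M.start h0 hw' hnt with ⟨z, h1, h3, h4⟩ | ⟨e, he, x', y', h1, h3, h4⟩
    · refine Finset.mem_union_left _ (Finset.mem_biUnion.2 ⟨z, Finset.mem_univ _, ?_⟩)
      exact Finset.mem_filter.2 ⟨hw, h1, h3, h4⟩
    · refine Finset.mem_union_right _ (Finset.mem_image.2 ⟨e, Set.mem_toFinset.2 he, ?_⟩)
      have h : ∃ w, ∃ x' y', M.X e.1 = {x'} ∧ M.Y e.2.2 = {y'} ∧ w = x' ++ e.2.1 :: y' :=
        ⟨_, x', y', h1, h3, rfl⟩
      simp only [f, dif_pos h]
      obtain ⟨x2, y2, hx2, hy2, h5⟩ := h.choose_spec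
      rw [h5]
      rw [h1] at hx2
      rw [h3] at hy2
      rw [← Set.singleton_injective hx2, ← Set.singleton_injective hy2, ← h4]
      rfl
  have h1 : ∀ z, (W z).card ≤ K := by
    intro z
    by_cases hz : (M.X z).Nontrivial ∧ (M.Y z).Nontrivial
    · refine hK (M.X z) (M.Y z) hz.1 hz.2 (fun x hx y hy => ?_) _ fun w hw => ?_
      · have := XY M hx hy
        rw [hL] at this
        exact_mod_cast this
      · exact (Finset.mem_filter.1 hw).2.2.2
    · have : W z = ∅ := by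
        refine Finset.filter_eq_empty_iff.2 fun w _ h => hz ⟨h.1, h.2.1⟩
      rw [this]; simp
  calc L.card ≤ _ := Finset.card_le_card hsub
    _ ≤ _ := Finset.card_union_le _ _
    _ ≤ (∑ z : Q, (W z).card) + (M.δ.toFinset).card :=
        Nat.add_le_add Finset.card_biUnion_le Finset.card_image_le
    _ ≤ (∑ _z : Q, K) + M.δ.ncard := by
        rw [Set.ncard_eq_toFinset_card']
        exact Nat.add_le_add (Finset.sum_le_sum fun z _ => h1 z) le_rfl
    _ = _ := by
        rw [Finset.sum_const, Finset.card_univ, Nat.card_eq_fintype_card, smul_eq_mul]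
        ring

/-! ### Restricting an automaton to a finite set of states -/

theorem restrict [Finite A] (M : Nfa A Q) (S : Set Q) (hS : S.Finite) (h0 : M.start ∈ S)
    (hc : ∀ p a q, (p, a, q) ∈ M.δ → p ∈ S → q ∈ S) (hδ : M.δ.Finite) :
    ∃ k t, Rec M.lang k t ∧ k ≤ S.ncard ∧ t ≤ M.δ.ncard := by
  let M' : Nfa A S := ⟨⟨M.start, h0⟩, {q | q.1 ∈ M.acc}, {t | (t.1.1, t.2.1, t.2.2.1) ∈ M.δ}⟩
  have h1 : ∀ (w : List A) (p q : S), M'.Run p w q ↔ M.Run p.1 w q.1 := by
    intro w
    induction w with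
    | nil => intro p q; exact Subtype.ext_iff
    | cons a w ih =>
      intro p q
      constructor
      · rintro ⟨r, hr, h⟩
        exact ⟨r.1, hr, (ih r q).1 h⟩
      · rintro ⟨r, hr, h⟩
        have hrS := hc _ _ _ hr p.2
        exact ⟨⟨r, hrS⟩, hr, (ih ⟨r, hrS⟩ q).2 h⟩
  have hrun : ∀ (w : List A) (p q : Q), p ∈ S → M.Run p w q → q ∈ S := by
    intro w
    induction w with
    | nil => intro p q hp h; cases h; exact hp
    | cons a w ih =>
      rintro p q hp ⟨r, hr, h⟩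
      exact ih r q (hc _ _ _ hr hp) h
  refine ⟨Nat.card S, M'.δ.ncard, ⟨S, hS.to_subtype, M', ?_, rfl, rfl⟩, ?_, ?_⟩
  · ext w
    constructor
    · rintro ⟨f, hf, h⟩
      exact ⟨f.1, hf, (h1 w _ f).1 h⟩
    · rintro ⟨f, hf, h⟩
      have hfS := hrun w _ f h0 h
      exact ⟨⟨f, hfS⟩, hf, (h1 w _ ⟨f, hfS⟩).2 h⟩
  · exact le_of_eq (Nat.card_coe_set_eq S)
  · refine Set.ncard_le_ncard_of_injOn (fun t : S × A × S => (t.1.1, t.2.1, t.2.2.1))
      (fun t ht => ht) ?_ hδ
    rintro ⟨⟨p, hp⟩, a, ⟨q, hq⟩⟩ - ⟨⟨p', hp'⟩, a', ⟨q', hq'⟩⟩ - h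
    simp only [Prod.mk.injEq] at h
    obtain ⟨rfl, rfl, rfl⟩ := h
    rfl

/-! ### The three-layer automaton -/

section build

variable {U V K : Type}

/-- States: the start state; reading the word of `u` (the list is what remains to be read);
a middle state; reading the word of `v`. -/
inductive St (U V K : Type) where
  | s0 : St U V K
  | l : U → List Bool → St U V K
  | k : K → St U V K
  | r : V → List Bool → St U V K

variable (eu : U → List Bool) (ev : V → List Bool) (R1 : U → K → Prop) (R2 : K → V → Prop)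

/-- The transitions. -/
inductive Step : St U V K → Bool → St U V K → Prop where
  | start (u : U) (a : Bool) (s : List Bool) (h : eu u = a :: s) (hs : s ≠ []) :
      Step .s0 a (.l u s)
  | left (u : U) (a : Bool) (s : List Bool) (h : (a :: s) <:+ eu u) (hs : s ≠ []) :
      Step (.l u (a :: s)) a (.l u s)
  | mid (u : U) (a : Bool) (κ : K) (h : [a] <:+ eu u) (hR : R1 u κ) :
      Step (.l u [a]) a (.k κ)
  | out (κ : K) (v : V) (a : Bool) (s : List Bool) (hR : R2 κ v) (h : ev v = a :: s) :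
      Step (.k κ) a (.r v s)
  | right (v : V) (a : Bool) (s : List Bool) (h : (a :: s) <:+ ev v) :
      Step (.r v (a :: s)) a (.r v s)

/-- The automaton. -/
def aut : Nfa Bool (St U V K) where
  start := .s0
  acc := {q | ∃ v, q = .r v []}
  δ := {t | Step eu ev R1 R2 t.1 t.2.1 t.2.2}

variable {eu ev R1 R2}

theorem mem_Y_nil {q : St U V K} : ([] : List Bool) ∈ (aut eu ev R1 R2).Y q ↔
    ∃ v, q = .r v [] := by
  constructor
  · rintro ⟨f, hf, h⟩
    cases h
    exact hf
  · intro h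
    exact ⟨q, h, rfl⟩

theorem mem_Y_cons {q : St U V K} {a : Bool} {w : List Bool} :
    a :: w ∈ (aut eu ev R1 R2).Y q ↔ ∃ q', Step eu ev R1 R2 q a q' ∧
      w ∈ (aut eu ev R1 R2).Y q' := by
  constructor
  · rintro ⟨f, hf, r, hr, h⟩
    exact ⟨r, hr, f, hf, h⟩
  · rintro ⟨r, hr, f, hf, h⟩
    exact ⟨f, hf, r, hr, h⟩

theorem Y_r {v : V} : ∀ {s w : List Bool}, s <:+ ev v →
    (w ∈ (aut eu ev R1 R2).Y (.r v s) ↔ w = s) := by
  intro s
  induction s with
  | nil =>
    intro w hs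
    cases w with
    | nil => rw [mem_Y_nil]; exact ⟨fun _ => rfl, fun _ => ⟨v, rfl⟩⟩
    | cons b w =>
      rw [mem_Y_cons]
      constructor
      · rintro ⟨q', h, -⟩; cases h
      · intro h; cases h
  | cons a s ih =>
    intro w hs
    have hs' : s <:+ ev v := (List.suffix_cons a s).trans hs
    cases w with
    | nil =>
      rw [mem_Y_nil]
      constructor
      · rintro ⟨v', h⟩; cases h
      · intro h; cases h
    | cons b w =>
      rw [mem_Y_cons]
      constructor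
      · rintro ⟨q', h, hw⟩
        cases h
        rw [(ih hs').1 hw]
      · intro h
        cases h
        exact ⟨_, Step.right v a s hs, (ih hs').2 rfl⟩

theorem Y_k {κ : K} {w : List Bool} (hne : ∀ v, ev v ≠ []) :
    w ∈ (aut eu ev R1 R2).Y (.k κ) ↔ ∃ v, R2 κ v ∧ w = ev v := by
  cases w with
  | nil =>
    rw [mem_Y_nil]
    constructor
    · rintro ⟨v', h⟩; cases h
    · rintro ⟨v, -, h⟩; exact absurd h.symm (hne v)
  | cons b w =>
    rw [mem_Y_cons]
    constructor
    · rintro ⟨q', h, hw⟩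
      cases h with
      | out _ v a s hR h =>
        refine ⟨v, hR, ?_⟩
        rw [h, (Y_r (h ▸ List.suffix_cons _ _)).1 hw]
    · rintro ⟨v, hR, h⟩
      exact ⟨.r v w, Step.out κ v b w hR h.symm, (Y_r (h ▸ List.suffix_cons _ _)).2 rfl⟩

theorem Y_l {u : U} (hne : ∀ v, ev v ≠ []) : ∀ {s w : List Bool}, s <:+ eu u → s ≠ [] →
    (w ∈ (aut eu ev R1 R2).Y (.l u s) ↔ ∃ v, (∃ κ, R1 u κ ∧ R2 κ v) ∧ w = s ++ ev v) := by
  intro s
  induction s with
  | nil => intro w _ h; exact absurd rfl h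
  | cons a s ih =>
    intro w hs _
    have hs' : s <:+ eu u := (List.suffix_cons a s).trans hs
    cases w with
    | nil =>
      rw [mem_Y_nil]
      constructor
      · rintro ⟨v', h⟩; cases h
      · rintro ⟨v, -, h⟩; cases h
    | cons b w =>
      rw [mem_Y_cons]
      constructor
      · rintro ⟨q', h, hw⟩
        cases h with
        | left _ _ _ h1 h2 =>
          obtain ⟨v, hv, h3⟩ := (ih hs' h2).1 hw
          exact ⟨v, hv, by rw [h3]; rfl⟩
        | mid _ _ κ h1 h2 =>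
          obtain ⟨v, hv, h3⟩ := (Y_k hne).1 hw
          exact ⟨v, ⟨κ, h2, hv⟩, by rw [h3]; rfl⟩
      · rintro ⟨v, ⟨κ, h1, h2⟩, h3⟩
        rw [List.cons_append, List.cons.injEq] at h3
        obtain ⟨rfl, h3⟩ := h3
        by_cases h4 : s = []
        · subst h4
          exact ⟨.k κ, Step.mid u b κ hs h1, (Y_k hne).2 ⟨v, h2, h3⟩⟩
        · exact ⟨.l u s, Step.left u b s hs h4, (ih hs' h4).2 ⟨v, ⟨κ, h1, h2⟩, h3⟩⟩

theorem aut_lang (hne : ∀ v, ev v ≠ []) (hne' : ∀ u, 2 ≤ (eu u).length) :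
    (aut eu ev R1 R2).lang = {w | ∃ u v, (∃ κ, R1 u κ ∧ R2 κ v) ∧ w = eu u ++ ev v} := by
  ext w
  show w ∈ (aut eu ev R1 R2).Y .s0 ↔ _
  cases w with
  | nil =>
    rw [mem_Y_nil]
    constructor
    · rintro ⟨v', h⟩; cases h
    · rintro ⟨u, v, -, h⟩
      have := hne v
      have h2 := congrArg List.length h
      rw [List.length_append, List.length_nil] at h2
      have := hne' u
      omega
  | cons b w =>
    rw [mem_Y_cons]
    constructor
    · rintro ⟨q', h, hw⟩
      cases h with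
      | start u a s h1 h2 =>
        obtain ⟨v, hv, h3⟩ := (Y_l hne (h1 ▸ List.suffix_cons _ _) h2).1 hw
        exact ⟨u, v, hv, by rw [h3, h1]; rfl⟩
    · rintro ⟨u, v, hv, h⟩
      cases h1 : eu u with
      | nil => have := hne' u; rw [h1] at this; simp at this
      | cons a s =>
        rw [h1, List.cons_append, List.cons.injEq] at h
        obtain ⟨rfl, h⟩ := h
        have h2 : s ≠ [] := by
          rintro rfl
          have := hne' u
          rw [h1] at this
          simp at this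
        exact ⟨.l u s, Step.start u b s h1 h2, (Y_l hne (h1 ▸ List.suffix_cons _ _) h2).2
          ⟨v, hv, h⟩⟩

/-- The size of the three-layer automaton. -/
theorem build [Fintype U] [Fintype V] [Fintype K] (ℓ : ℕ) (hℓ : 2 ≤ ℓ)
    (hu : ∀ u, (eu u).length = ℓ) (hv : ∀ v, (ev v).length = ℓ)
    (r1 : Finset (U × K)) (r2 : Finset (K × V)) (h1 : ∀ u κ, R1 u κ ↔ (u, κ) ∈ r1)
    (h2 : ∀ κ v, R2 κ v ↔ (κ, v) ∈ r2) :
    ∃ k t, Rec {w | ∃ u v, (∃ κ, R1 u κ ∧ R2 κ v) ∧ w = eu u ++ ev v} k t ∧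
      k ≤ 1 + Fintype.card U * ℓ + Fintype.card K + Fintype.card V * ℓ ∧
      t ≤ Fintype.card U + Fintype.card U * ℓ + r1.card + r2.card + Fintype.card V * ℓ := by
  classical
  have hne : ∀ v, ev v ≠ [] := fun v h => by have := hv v; rw [h] at this; simp at this; omega
  rw [← aut_lang (R1 := R1) (R2 := R2) hne (fun u => by rw [hu]; exact hℓ)]
  -- the states
  let g : Unit ⊕ (U × Fin ℓ) ⊕ K ⊕ (V × Fin ℓ) → St U V K := fun t => match t with
    | .inl _ => .s0
    | .inr (.inl (u, i)) => .l u ((eu u).drop (i + 1))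
    | .inr (.inr (.inl κ)) => .k κ
    | .inr (.inr (.inr (v, i))) => .r v ((ev v).drop (i + 1))
  have hdrop : ∀ (w s : List Bool) (a : Bool), w.length = ℓ → (a :: s) <:+ w →
      ∃ i : Fin ℓ, w.drop i = a :: s ∧ w.drop (i + 1) = s := by
    intro w s a hw hs
    have h3 := List.suffix_iff_eq_drop.1 hs
    have h4 := hs.length_le
    rw [List.length_cons] at h4 h3
    refine ⟨⟨w.length - (s.length + 1), by omega⟩, h3.symm, ?_⟩
    show w.drop (w.length - (s.length + 1) + 1) = s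
    rw [← List.tail_drop, ← h3]
    rfl
  have hg1 : Set.range g ⊆ Set.range g := le_rfl
  let G : U ⊕ (U × Fin ℓ) ⊕ r1 ⊕ r2 ⊕ (V × Fin ℓ) → St U V K × Bool × St U V K := fun t =>
    match t with
    | .inl u => (.s0, (eu u).headI, .l u (eu u).tail)
    | .inr (.inl (u, i)) => (.l u ((eu u).drop i), ((eu u).drop i).headI,
        .l u ((eu u).drop i).tail)
    | .inr (.inr (.inl p)) => (.l p.1.1 ((eu p.1.1).drop (ℓ - 1)),
        ((eu p.1.1).drop (ℓ - 1)).headI, .k p.1.2)
    | .inr (.inr (.inr (.inl p))) => (.k p.1.1, (ev p.1.2).headI, .r p.1.2 (ev p.1.2).tail)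
    | .inr (.inr (.inr (.inr (v, i)))) => (.r v ((ev v).drop i), ((ev v).drop i).headI,
        .r v ((ev v).drop i).tail)
  have hG : (aut eu ev R1 R2).δ ⊆ Set.range G := by
    rintro ⟨p, b, q⟩ h
    change Step eu ev R1 R2 p b q at h
    cases h with
    | start u a s h3 h4 => exact ⟨.inl u, by simp [G, h3]⟩
    | left u a s h3 h4 =>
      obtain ⟨i, hi, hi2⟩ := hdrop _ _ _ (hu u) h3
      exact ⟨.inr (.inl (u, i)), by simp [G, hi, hi2]⟩
    | mid u a κ h3 h4 =>
      refine ⟨.inr (.inr (.inl ⟨(u, κ), (h1 _ _).1 h4⟩)), ?_⟩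
      have h5 := List.suffix_iff_eq_drop.1 h3
      rw [hu] at h5
      simp only [List.length_singleton] at h5
      simp [G, ← h5]
    | out κ v a s h3 h4 =>
      exact ⟨.inr (.inr (.inr (.inl ⟨(κ, v), (h2 _ _).1 h3⟩))), by simp [G, h4]⟩
    | right v a s h3 =>
      obtain ⟨i, hi, hi2⟩ := hdrop _ _ _ (hv v) h3
      exact ⟨.inr (.inr (.inr (.inr (v, i)))), by simp [G, hi, hi2]⟩
  have hfin : (aut eu ev R1 R2).δ.Finite := (Set.finite_range G).subset hG
  obtain ⟨k, t, h3, h4, h5⟩ := restrict (aut eu ev R1 R2) (Set.range g) (Set.finite_range g)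
    ⟨.inl (), rfl⟩ (by
      rintro p a q h -
      change Step eu ev R1 R2 p a q at h
      cases h with
      | start u a s h3 h4 =>
        obtain ⟨i, -, hi⟩ := hdrop _ s a (hu u) (h3 ▸ List.suffix_rfl)
        exact ⟨.inr (.inl (u, i)), by simp [g, hi]⟩
      | left u a s h3 h4 =>
        obtain ⟨i, -, hi⟩ := hdrop _ _ _ (hu u) h3
        exact ⟨.inr (.inl (u, i)), by simp [g, hi]⟩
      | mid u a κ h3 h4 => exact ⟨.inr (.inr (.inl κ)), rfl⟩
      | out κ v a s h3 h4 =>
        obtain ⟨i, -, hi⟩ := hdrop _ s a (hv v) (h4 ▸ List.suffix_rfl)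
        exact ⟨.inr (.inr (.inr (v, i))), by simp [g, hi]⟩
      | right v a s h3 =>
        obtain ⟨i, -, hi⟩ := hdrop _ _ _ (hv v) h3
        exact ⟨.inr (.inr (.inr (v, i))), by simp [g, hi]⟩) hfin
  refine ⟨k, t, h3, h4.trans ?_, h5.trans ?_⟩
  · have : (Set.range g).ncard ≤ Nat.card (Unit ⊕ (U × Fin ℓ) ⊕ K ⊕ (V × Fin ℓ)) := by
      rw [← Set.image_univ]
      exact (Set.ncard_image_le Set.finite_univ).trans (le_of_eq (Set.ncard_univ _))
    refine this.trans (le_of_eq ?_)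
    simp only [Nat.card_eq_fintype_card, Fintype.card_sum, Fintype.card_prod, Fintype.card_fin,
      Fintype.card_unit]
    ring
  · have : (Set.range G).ncard ≤ Nat.card (U ⊕ (U × Fin ℓ) ⊕ r1 ⊕ r2 ⊕ (V × Fin ℓ)) := by
      rw [← Set.image_univ]
      exact (Set.ncard_image_le Set.finite_univ).trans (le_of_eq (Set.ncard_univ _))
    refine (Set.ncard_le_ncard hG (Set.finite_range G)).trans (this.trans (le_of_eq ?_))
    simp only [Nat.card_eq_fintype_card, Fintype.card_sum, Fintype.card_prod, Fintype.card_fin,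
      Fintype.card_coe]
    ring

end build

/-! ### The graph -/

section graph

variable (p : ℕ) [Fact p.Prime]

/-- The vertices (on both sides). -/
abbrev Vx := Fin 3 × ZMod p × ZMod p

variable {p}

/-- the multiplier -/
def al (i j : Fin 3) : ZMod p := ((i.1 + j.1 + 1 : ℕ) : ZMod p)

/-- The edges: a union of edge-disjoint complete bipartite graphs `K_{3,3}`. -/
def E (u v : Vx p) : Prop := ∃ d : ZMod p, v.2.1 - u.2.1 = al u.1 v.1 * d ∧ v.2.2 - u.2.2 = d ^ 2

theorem cast_inj (hp : 25 < p) {a b : ℕ} (ha : a ≤ 25) (hb : b ≤ 25)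
    (h : (a : ZMod p) = (b : ZMod p)) : a = b := by
  have h1 := congrArg ZMod.val h
  rwa [ZMod.val_natCast_of_lt (by omega), ZMod.val_natCast_of_lt (by omega)] at h1

theorem al_ne (hp : 25 < p) (i j : Fin 3) : (al i j : ZMod p) ≠ 0 := by
  intro h
  have hi := i.2
  have hj := j.2
  have : ((i.1 + j.1 + 1 : ℕ) : ZMod p) = ((0 : ℕ) : ZMod p) := by rw [Nat.cast_zero]; exact h
  have := cast_inj hp (by omega) (by omega) this
  omega

theorem al_sq (hp : 25 < p) {i j i' j' : Fin 3} (h : (al i j : ZMod p) ^ 2 = al i' j' ^ 2) :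
    i.1 + j.1 = i'.1 + j'.1 := by
  unfold al at h
  have h1 := i.2
  have h2 := j.2
  have h3 := i'.2
  have h4 := j'.2
  rw [← Nat.cast_pow, ← Nat.cast_pow] at h
  have := cast_inj hp (by nlinarith) (by nlinarith) h
  have := Nat.pow_left_injective (n := 2) (by norm_num) this
  omega

theorem quad (A B C : ZMod p) (h : ¬ (A = 0 ∧ B = 0 ∧ C = 0)) (S : Finset (ZMod p))
    (hS : ∀ d ∈ S, A * d ^ 2 + B * d + C = 0) : S.card ≤ 2 := by
  classical
  open Polynomial in
  let f : Polynomial (ZMod p) := Polynomial.C A * Polynomial.X ^ 2 +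
    Polynomial.C B * Polynomial.X + Polynomial.C C
  have hf : f ≠ 0 := by
    intro hf
    apply h
    have h0 := congrArg (fun g => Polynomial.coeff g 0) hf
    have h1 := congrArg (fun g => Polynomial.coeff g 1) hf
    have h2 := congrArg (fun g => Polynomial.coeff g 2) hf
    simp [f, Polynomial.coeff_X, Polynomial.coeff_C, Polynomial.coeff_X_pow] at h0 h1 h2
    exact ⟨h2, h1, h0⟩
  have hdeg : f.natDegree ≤ 2 := Polynomial.natDegree_quadratic_le
  have hsub : S ⊆ f.roots.toFinset := by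
    intro d hd
    rw [Multiset.mem_toFinset, Polynomial.mem_roots hf, Polynomial.IsRoot.def]
    have := hS d hd
    simpa [f] using this
  calc S.card ≤ f.roots.toFinset.card := Finset.card_le_card hsub
    _ ≤ Multiset.card f.roots := Multiset.toFinset_card_le _
    _ ≤ f.natDegree := Polynomial.card_roots' f
    _ ≤ 2 := hdeg

theorem sol (hp : 25 < p) (α β c1 c2 : ZMod p)
    (h : α ^ 2 ≠ β ^ 2 ∨ (α = β ∧ α ≠ 0 ∧ ¬ (c1 = 0 ∧ c2 = 0))) (S : Finset (ZMod p))
    (hS : ∀ d ∈ S, ∃ d', α * d - β * d' = c1 ∧ d ^ 2 - d' ^ 2 = c2) : S.card ≤ 2 := by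
  refine quad (β ^ 2 - α ^ 2) (2 * α * c1) (-(c1 ^ 2 + β ^ 2 * c2)) ?_ S ?_
  · rintro ⟨h1, h2, h3⟩
    rcases h with h | ⟨rfl, h4, h5⟩
    · exact h (sub_eq_zero.1 h1).symm
    · have h20 : (2 : ZMod p) ≠ 0 := by
        intro h
        have : ((2 : ℕ) : ZMod p) = ((0 : ℕ) : ZMod p) := by push_cast; exact h
        have := cast_inj hp (by omega) (by omega) this
        omega
      have hc1 : c1 = 0 := by
        rcases mul_eq_zero.1 h2 with h6 | h6
        · rcases mul_eq_zero.1 h6 with h7 | h7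
          · exact absurd h7 h20
          · exact absurd h7 h4
        · exact h6
      subst hc1
      apply h5
      refine ⟨rfl, ?_⟩
      have : α ^ 2 * c2 = 0 := by linear_combination -h3
      rcases mul_eq_zero.1 this with h6 | h6
      · exact absurd (pow_eq_zero_iff (by norm_num) |>.1 h6) h4
      · exact h6
  · intro d hd
    obtain ⟨d', h1, h2⟩ := hS d hd
    linear_combination β ^ 2 * h2 - (β * d' + α * d - c1) * h1

/-- Codegrees on the left side are at most `6`. -/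
theorem codeg_left (hp : 25 < p) {v v' : Vx p} (hne : v ≠ v') (S : Finset (Vx p))
    (hS : ∀ u ∈ S, E u v ∧ E u v') : S.card ≤ 6 := by
  classical
  let D : Fin 3 → Finset (ZMod p) := fun i => Finset.univ.filter fun d =>
    ∃ d', al i v.1 * d - al i v'.1 * d' = v.2.1 - v'.2.1 ∧ d ^ 2 - d' ^ 2 = v.2.2 - v'.2.2
  have hD : ∀ i, (D i).card ≤ 2 := by
    intro i
    refine sol hp (al i v.1) (al i v'.1) (v.2.1 - v'.2.1) (v.2.2 - v'.2.2) ?_ _
      fun d hd => (Finset.mem_filter.1 hd).2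
    by_cases h : v.1 = v'.1
    · refine Or.inr ⟨by rw [h], al_ne hp _ _, ?_⟩
      rintro ⟨h1, h2⟩
      exact hne (Prod.ext h (Prod.ext (sub_eq_zero.1 h1) (sub_eq_zero.1 h2)))
    · refine Or.inl fun h1 => h ?_
      have := al_sq hp h1
      exact Fin.ext (by omega)
  have hsub : S ⊆ Finset.univ.biUnion fun i => (D i).image fun d =>
      ((i, v.2.1 - al i v.1 * d, v.2.2 - d ^ 2) : Vx p) := by
    intro u hu
    obtain ⟨⟨d, h1, h2⟩, ⟨d', h3, h4⟩⟩ := hS u hu
    refine Finset.mem_biUnion.2 ⟨u.1, Finset.mem_univ _, Finset.mem_image.2 ⟨d, ?_, ?_⟩⟩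
    · refine Finset.mem_filter.2 ⟨Finset.mem_univ _, d', ?_, ?_⟩
      · linear_combination h3 - h1
      · linear_combination h4 - h2
    · refine Prod.ext rfl (Prod.ext ?_ ?_)
      · show v.2.1 - al u.1 v.1 * d = u.2.1
        linear_combination h1
      · show v.2.2 - d ^ 2 = u.2.2
        linear_combination h2
  calc S.card ≤ _ := Finset.card_le_card hsub
    _ ≤ ∑ i : Fin 3, ((D i).image _).card := Finset.card_biUnion_le
    _ ≤ ∑ _i : Fin 3, 2 := Finset.sum_le_sum fun i _ => Finset.card_image_le.trans (hD i)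
    _ = 6 := by simp

/-- Codegrees on the right side are at most `6`. -/
theorem codeg_right (hp : 25 < p) {u u' : Vx p} (hne : u ≠ u') (S : Finset (Vx p))
    (hS : ∀ v ∈ S, E u v ∧ E u' v) : S.card ≤ 6 := by
  classical
  let D : Fin 3 → Finset (ZMod p) := fun j => Finset.univ.filter fun d =>
    ∃ d', al u.1 j * d - al u'.1 j * d' = u'.2.1 - u.2.1 ∧ d ^ 2 - d' ^ 2 = u'.2.2 - u.2.2
  have hD : ∀ i, (D i).card ≤ 2 := by
    intro i
    refine sol hp (al u.1 i) (al u'.1 i) (u'.2.1 - u.2.1) (u'.2.2 - u.2.2) ?_ _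
      fun d hd => (Finset.mem_filter.1 hd).2
    by_cases h : u.1 = u'.1
    · refine Or.inr ⟨by rw [h], al_ne hp _ _, ?_⟩
      rintro ⟨h1, h2⟩
      exact hne (Prod.ext h (Prod.ext (sub_eq_zero.1 h1).symm (sub_eq_zero.1 h2).symm))
    · refine Or.inl fun h1 => h ?_
      have := al_sq hp h1
      exact Fin.ext (by omega)
  have hsub : S ⊆ Finset.univ.biUnion fun i => (D i).image fun d =>
      ((i, u.2.1 + al u.1 i * d, u.2.2 + d ^ 2) : Vx p) := by
    intro v hv
    obtain ⟨⟨d, h1, h2⟩, ⟨d', h3, h4⟩⟩ := hS v hv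
    refine Finset.mem_biUnion.2 ⟨v.1, Finset.mem_univ _, Finset.mem_image.2 ⟨d, ?_, ?_⟩⟩
    · refine Finset.mem_filter.2 ⟨Finset.mem_univ _, d', ?_, ?_⟩
      · linear_combination h3 - h1
      · linear_combination h4 - h2
    · refine Prod.ext rfl (Prod.ext ?_ ?_)
      · show u.2.1 + al u.1 v.1 * d = v.2.1
        linear_combination -h1
      · show u.2.2 + d ^ 2 = v.2.2
        linear_combination -h2
  calc S.card ≤ _ := Finset.card_le_card hsub
    _ ≤ ∑ i : Fin 3, ((D i).image _).card := Finset.card_biUnion_le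
    _ ≤ ∑ _i : Fin 3, 2 := Finset.sum_le_sum fun i _ => Finset.card_image_le.trans (hD i)
    _ = 6 := by simp

/-- the word of an edge -/
def wd {X : Type} (e : X → List Bool) (u v : X) : List Bool := (e u ++ e u) ++ (e v ++ e v)

theorem wd_inj {X : Type} {e : X → List Bool} {m : ℕ} (he : Function.Injective e)
    (hm : ∀ x, (e x).length = m) {u v u' v' : X} (h : wd e u v = wd e u' v') :
    u = u' ∧ v = v' := by
  unfold wd at h
  have h1 := List.append_inj h (by simp [hm])
  exact ⟨he (List.append_inj h1.1 (by simp [hm])).1, he (List.append_inj h1.2 (by simp [hm])).1⟩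

theorem drop_le {x y : List Bool} {k : ℕ} (h : x.length ≤ k) :
    (x ++ y).drop k = y.drop (k - x.length) := by
  rw [List.drop_append, List.drop_eq_nil_of_le h, List.nil_append]

theorem take_ge {x y : List Bool} {k : ℕ} (h : k ≤ x.length) : (x ++ y).take k = x.take k := by
  rw [List.take_append, Nat.sub_eq_zero_of_le h, List.take_zero, List.append_nil]

section wd

variable {Z : Type} {e : Z → List Bool} {m : ℕ} (hm : ∀ x, (e x).length = m)

include hm

theorem wd_take1 (u v : Z) : (wd e u v).take m = e u := by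
  unfold wd
  rw [List.append_assoc, take_ge (by simp [hm]), List.take_of_length_le (by simp [hm])]

theorem wd_drop1 (u v : Z) : (wd e u v).drop m = e u ++ (e v ++ e v) := by
  unfold wd
  rw [List.append_assoc, drop_le (by simp [hm]), hm, Nat.sub_self, List.drop_zero]

theorem wd_take3 (u v : Z) : (wd e u v).take (3 * m) = (e u ++ e u) ++ e v := by
  unfold wd
  rw [← List.append_assoc, take_ge (by simp [hm]; omega),
    List.take_of_length_le (by simp [hm]; omega)]

theorem wd_drop3 (u v : Z) : (wd e u v).drop (3 * m) = e v := by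
  unfold wd
  rw [← List.append_assoc, drop_le (by simp [hm]; omega)]
  have : 3 * m - (e u ++ e u ++ e v).length = 0 := by simp [hm]; omega
  rw [this, List.drop_zero]

end wd

/-- The bound for rectangles in the language. -/
theorem rect (hp : 25 < p) {e : Vx p → List Bool} {m : ℕ} (he : Function.Injective e)
    (hm : ∀ x, (e x).length = m) (X Y : Set (List Bool)) (hX : X.Nontrivial)
    (hY : Y.Nontrivial) (hXY : ∀ x ∈ X, ∀ y ∈ Y, ∃ u v, E u v ∧ x ++ y = wd e u v)
    (S : Finset (List Bool)) (hS : ∀ w ∈ S, ∃ x ∈ X, ∃ y ∈ Y, w = x ++ y) : S.card ≤ 36 := by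
  classical
  obtain ⟨x0, hx0, x1, hx1, hx⟩ := hX
  obtain ⟨y0, hy0, y1, hy1, hy⟩ := hY
  have hlen : ∀ x ∈ X, ∀ y ∈ Y, x.length + y.length = 4 * m := by
    intro x hx y hy
    obtain ⟨u, v, -, h⟩ := hXY x hx y hy
    have := congrArg List.length h
    unfold wd at this
    simp only [List.length_append, hm] at this
    omega
  choose! U V hE hw using hXY
  have hl00 := hlen x0 hx0 y0 hy0
  have hl10 := hlen x1 hx1 y0 hy0
  have hl01 := hlen x0 hx0 y1 hy1
  -- lengths
  have hmx : m ≤ x0.length := by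
    by_contra h
    push Not at h
    have h5 : (x0 ++ y0).drop m = (x1 ++ y0).drop m := by
      rw [drop_le (by omega), drop_le (by omega)]
      congr 1; omega
    rw [hw x0 hx0 y0 hy0, hw x1 hx1 y0 hy0, wd_drop1 hm, wd_drop1 hm] at h5
    have h6 := List.append_inj h5 (by simp [hm])
    have h7 := List.append_inj h6.2 (by simp [hm])
    have h8 : x0 ++ y0 = x1 ++ y0 := by
      rw [hw x0 hx0 y0 hy0, hw x1 hx1 y0 hy0, he h6.1, he h7.1]
    exact hx (List.append_cancel_right h8)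
  have hmy : m ≤ y0.length := by
    by_contra h
    push Not at h
    have h5 : (x0 ++ y0).take (3 * m) = (x0 ++ y1).take (3 * m) := by
      rw [take_ge (by omega), take_ge (by omega)]
    rw [hw x0 hx0 y0 hy0, hw x0 hx0 y1 hy1, wd_take3 hm, wd_take3 hm] at h5
    have h6 := List.append_inj h5 (by simp [hm])
    have h7 := List.append_inj h6.1 (by simp [hm])
    have h8 : x0 ++ y0 = x0 ++ y1 := by
      rw [hw x0 hx0 y0 hy0, hw x0 hx0 y1 hy1, he h6.2, he h7.1]
    exact hy (List.append_cancel_left h8)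
  -- the left vertex depends only on the first part
  have hU : ∀ x ∈ X, ∀ y ∈ Y, ∀ y' ∈ Y, U x y = U x y' := by
    intro x hx y hy y' hy'
    have h1 := hlen x hx y0 hy0
    have h5 : (x ++ y).take m = (x ++ y').take m := by
      rw [take_ge (by omega), take_ge (by omega)]
    rw [hw x hx y hy, hw x hx y' hy', wd_take1 hm, wd_take1 hm] at h5
    exact he h5
  have hV : ∀ x ∈ X, ∀ x' ∈ X, ∀ y ∈ Y, V x y = V x' y := by
    intro x hx x' hx' y hy
    have h1 := hlen x hx y0 hy0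
    have h2 := hlen x' hx' y0 hy0
    have h5 : (x ++ y).drop (3 * m) = (x' ++ y).drop (3 * m) := by
      rw [drop_le (by omega), drop_le (by omega)]
      congr 1; omega
    rw [hw x hx y hy, hw x' hx' y hy, wd_drop3 hm, wd_drop3 hm] at h5
    exact he h5
  have hv01 : V x0 y0 ≠ V x0 y1 := by
    intro h
    apply hy
    have : x0 ++ y0 = x0 ++ y1 := by
      rw [hw x0 hx0 y0 hy0, hw x0 hx0 y1 hy1, h, hU x0 hx0 y0 hy0 y1 hy1]
    exact List.append_cancel_left this
  have hu01 : U x0 y0 ≠ U x1 y0 := by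
    intro h
    apply hx
    have : x0 ++ y0 = x1 ++ y0 := by
      rw [hw x0 hx0 y0 hy0, hw x1 hx1 y0 hy0, h, hV x0 hx0 x1 hx1 y0 hy0]
    exact List.append_cancel_right this
  let SU : Finset (Vx p) := Finset.univ.filter fun u => E u (V x0 y0) ∧ E u (V x0 y1)
  let SV : Finset (Vx p) := Finset.univ.filter fun v => E (U x0 y0) v ∧ E (U x1 y0) v
  have hSU : SU.card ≤ 6 := codeg_left hp hv01 _ fun u hu => (Finset.mem_filter.1 hu).2
  have hSV : SV.card ≤ 6 := codeg_right hp hu01 _ fun u hu => (Finset.mem_filter.1 hu).2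
  have hsub : S ⊆ (SU ×ˢ SV).image fun q => wd e q.1 q.2 := by
    intro w hwS
    obtain ⟨x, hx, y, hy, rfl⟩ := hS w hwS
    refine Finset.mem_image.2 ⟨(U x y, V x y), Finset.mem_product.2 ⟨?_, ?_⟩, (hw x hx y hy).symm⟩
    · refine Finset.mem_filter.2 ⟨Finset.mem_univ _, ?_, ?_⟩
      · have := hE x hx y0 hy0
        rwa [hU x hx y0 hy0 y hy, hV x hx x0 hx0 y0 hy0] at this
      · have := hE x hx y1 hy1
        rwa [hU x hx y1 hy1 y hy, hV x hx x0 hx0 y1 hy1] at this
    · refine Finset.mem_filter.2 ⟨Finset.mem_univ _, ?_, ?_⟩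
      · have := hE x0 hx0 y hy
        rwa [hU x0 hx0 y hy y0 hy0, hV x0 hx0 x hx y hy] at this
      · have := hE x1 hx1 y hy
        rwa [hU x1 hx1 y hy y0 hy0, hV x1 hx1 x hx y hy] at this
  calc S.card ≤ _ := Finset.card_le_card hsub
    _ ≤ (SU ×ˢ SV).card := Finset.card_image_le
    _ = SU.card * SV.card := Finset.card_product _ _
    _ ≤ 6 * 6 := Nat.mul_le_mul hSU hSV
    _ = 36 := rfl

/-- the parametrisation of the edges -/
def par (t : (Fin 3 × Fin 3) × (ZMod p × ZMod p) × ZMod p) : Vx p × Vx p :=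
  ((t.1.1, t.2.1.1, t.2.1.2), (t.1.2, t.2.1.1 + al t.1.1 t.1.2 * t.2.2, t.2.1.2 + t.2.2 ^ 2))

theorem par_inj (hp : 25 < p) : Function.Injective (par (p := p)) := by
  rintro ⟨⟨i, j⟩, ⟨x1, x2⟩, d⟩ ⟨⟨i', j'⟩, ⟨x1', x2'⟩, d'⟩ h
  unfold par at h
  simp only [Prod.mk.injEq] at h
  obtain ⟨⟨rfl, rfl, rfl⟩, rfl, h1, -⟩ := h
  have := add_left_cancel h1
  rw [mul_right_inj' (al_ne hp i j)] at this
  rw [this]

theorem E_iff {u v : Vx p} : E u v ↔ ∃ t, par t = (u, v) := by
  constructor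
  · rintro ⟨d, h1, h2⟩
    refine ⟨((u.1, v.1), (u.2.1, u.2.2), d), ?_⟩
    unfold par
    refine Prod.ext rfl (Prod.ext rfl (Prod.ext ?_ ?_))
    · show u.2.1 + al u.1 v.1 * d = v.2.1
      linear_combination -h1
    · show u.2.2 + d ^ 2 = v.2.2
      linear_combination -h2
  · rintro ⟨t, ht⟩
    unfold par at ht
    obtain ⟨rfl, rfl⟩ := Prod.mk.injEq _ _ _ _ ▸ ht
    refine ⟨t.2.2, ?_, ?_⟩
    · show t.2.1.1 + al t.1.1 t.1.2 * t.2.2 - t.2.1.1 = al t.1.1 t.1.2 * t.2.2
      ring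
    · show t.2.1.2 + t.2.2 ^ 2 - t.2.1.2 = t.2.2 ^ 2
      ring

/-- the language as a finset -/
noncomputable def LF (e : Vx p → List Bool) : Finset (List Bool) := by
  classical
  exact (Finset.univ : Finset ((Fin 3 × Fin 3) × (ZMod p × ZMod p) × ZMod p)).image
    fun t => wd e (par t).1 (par t).2

theorem mem_LF {e : Vx p → List Bool} {w : List Bool} :
    w ∈ LF e ↔ ∃ u v, E u v ∧ w = wd e u v := by
  classical
  unfold LF
  rw [Finset.mem_image]
  constructor
  · rintro ⟨t, -, rfl⟩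
    exact ⟨_, _, E_iff.2 ⟨t, rfl⟩, rfl⟩
  · rintro ⟨u, v, h, rfl⟩
    obtain ⟨t, ht⟩ := E_iff.1 h
    exact ⟨t, Finset.mem_univ _, by rw [ht]⟩

theorem card_LF (hp : 25 < p) {e : Vx p → List Bool} {m : ℕ} (he : Function.Injective e)
    (hm : ∀ x, (e x).length = m) : (LF e).card = 9 * p ^ 3 := by
  classical
  unfold LF
  rw [Finset.card_image_of_injective]
  · simp only [Finset.card_univ, Fintype.card_prod, Fintype.card_fin, ZMod.card]
    ring
  · intro t t' h
    have := wd_inj he hm h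
    exact par_inj hp (Prod.ext this.1 this.2)

/-- the blocks -/
abbrev Kx (p : ℕ) := ZMod p × ZMod p × ZMod p

def R1 (u : Vx p) (κ : Kx p) : Prop := u.2.1 = κ.1 - (u.1.1 : ZMod p) * κ.2.2 ∧ u.2.2 = κ.2.1

def R2 (κ : Kx p) (v : Vx p) : Prop :=
  v.2.1 = κ.1 + ((v.1.1 + 1 : ℕ) : ZMod p) * κ.2.2 ∧ v.2.2 = κ.2.1 + κ.2.2 ^ 2

theorem E_blocks {u v : Vx p} : (∃ κ, R1 u κ ∧ R2 κ v) ↔ E u v := by
  constructor
  · rintro ⟨κ, ⟨h1, h2⟩, h3, h4⟩
    refine ⟨κ.2.2, ?_, ?_⟩
    · unfold al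
      push_cast at h3 ⊢
      linear_combination h3 - h1
    · linear_combination h4 - h2
  · rintro ⟨d, h1, h2⟩
    refine ⟨(u.2.1 + (u.1.1 : ZMod p) * d, u.2.2, d), ⟨?_, rfl⟩, ?_, ?_⟩
    · show u.2.1 = u.2.1 + (u.1.1 : ZMod p) * d - (u.1.1 : ZMod p) * d
      ring
    · show v.2.1 = u.2.1 + (u.1.1 : ZMod p) * d + ((v.1.1 + 1 : ℕ) : ZMod p) * d
      unfold al at h1
      push_cast at h1 ⊢
      linear_combination h1
    · show v.2.2 = u.2.2 + d ^ 2
      linear_combination h2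

theorem card_R1 [DecidablePred fun q : Vx p × Kx p => R1 q.1 q.2] :
    (Finset.univ.filter fun q : Vx p × Kx p => R1 q.1 q.2).card ≤ 3 * p ^ 3 := by
  classical
  have hsub : (Finset.univ.filter fun q : Vx p × Kx p => R1 q.1 q.2) ⊆
      (Finset.univ : Finset (Fin 3 × Kx p)).image fun t =>
        (((t.1, t.2.1 - (t.1.1 : ZMod p) * t.2.2.2, t.2.2.1) : Vx p), t.2) := by
    rintro ⟨u, κ⟩ h
    obtain ⟨h1, h2⟩ := (Finset.mem_filter.1 h).2
    refine Finset.mem_image.2 ⟨(u.1, κ), Finset.mem_univ _, ?_⟩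
    exact Prod.ext (Prod.ext rfl (Prod.ext h1.symm h2.symm)) rfl
  refine (Finset.card_le_card hsub).trans (Finset.card_image_le.trans (le_of_eq ?_))
  simp only [Finset.card_univ, Fintype.card_prod, Fintype.card_fin, ZMod.card]
  ring

theorem card_R2 [DecidablePred fun q : Kx p × Vx p => R2 q.1 q.2] :
    (Finset.univ.filter fun q : Kx p × Vx p => R2 q.1 q.2).card ≤ 3 * p ^ 3 := by
  classical
  have hsub : (Finset.univ.filter fun q : Kx p × Vx p => R2 q.1 q.2) ⊆
      (Finset.univ : Finset (Fin 3 × Kx p)).image fun t =>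
        (t.2, ((t.1, t.2.1 + ((t.1.1 + 1 : ℕ) : ZMod p) * t.2.2.2,
          t.2.2.1 + t.2.2.2 ^ 2) : Vx p)) := by
    rintro ⟨κ, v⟩ h
    obtain ⟨h1, h2⟩ := (Finset.mem_filter.1 h).2
    refine Finset.mem_image.2 ⟨(v.1, κ), Finset.mem_univ _, ?_⟩
    exact Prod.ext rfl (Prod.ext rfl (Prod.ext h1.symm h2.symm))
  refine (Finset.card_le_card hsub).trans (Finset.card_image_le.trans (le_of_eq ?_))
  simp only [Finset.card_univ, Fintype.card_prod, Fintype.card_fin, ZMod.card]
  ring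

/-- The bounds for the language of the graph. -/
theorem bounds (hp : 25 < p) {e : Vx p → List Bool} {m : ℕ} (he : Function.Injective e)
    (hm : ∀ x, (e x).length = m) (hm1 : 1 ≤ m) :
    (∃ k t, Rec (LF e : Set (List Bool)) k t) ∧
    nsc (LF e : Set (List Bool)) ≤ 1 + 3 * p ^ 2 * (4 * m + 1) ∧
    3 * p ^ 3 ≤ 3 * p ^ 2 * (4 * m + 1) + 36 * T (LF e : Set (List Bool)) := by
  classical
  have hcard : Fintype.card (Vx p) = 3 * p ^ 2 := by
    simp only [Fintype.card_prod, Fintype.card_fin, ZMod.card]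
    ring
  have hL2 : ∀ w : List Bool, w ∈ (LF e : Set (List Bool)) ↔
      ∃ u v, E u v ∧ w = (e u ++ e u) ++ (e v ++ e v) := fun w => by
    rw [Finset.mem_coe, mem_LF]; rfl
  have hlen : ∀ u : Vx p, (e u ++ e u).length = 2 * m := fun u => by
    rw [List.length_append, hm]; ring
  -- the small automaton
  have hA := build (U := Vx p) (V := Vx p) (K := Vx p) (eu := fun u => e u ++ e u)
    (ev := fun v => e v ++ e v) (R1 := fun u v => u = v) (R2 := fun u v => E u v)
    (2 * m) (by omega) hlen hlen (Finset.univ.filter fun q => q.1 = q.2)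
    (Finset.univ.filter fun q => E q.1 q.2) (fun u κ => by simp) (fun u κ => by simp)
  have hA' : {w | ∃ u v : Vx p, (∃ κ : Vx p, u = κ ∧ E κ v) ∧
      w = (e u ++ e u) ++ (e v ++ e v)} = (LF e : Set (List Bool)) := by
    ext w
    rw [hL2]
    constructor
    · rintro ⟨u, v, ⟨κ, rfl, h⟩, hw⟩
      exact ⟨u, v, h, hw⟩
    · rintro ⟨u, v, h, hw⟩
      exact ⟨u, v, ⟨u, rfl, h⟩, hw⟩
  rw [hA'] at hA
  obtain ⟨k, t, hkt, hk, -⟩ := hA
  -- the automaton with few transitions
  have hB := build (U := Vx p) (V := Vx p) (K := Kx p) (eu := fun u => e u ++ e u)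
    (ev := fun v => e v ++ e v) (R1 := R1) (R2 := R2)
    (2 * m) (by omega) hlen hlen (Finset.univ.filter fun q => R1 q.1 q.2)
    (Finset.univ.filter fun q => R2 q.1 q.2) (fun u κ => by simp) (fun u κ => by simp)
  have hB' : {w | ∃ u v : Vx p, (∃ κ : Kx p, R1 u κ ∧ R2 κ v) ∧
      w = (e u ++ e u) ++ (e v ++ e v)} = (LF e : Set (List Bool)) := by
    ext w
    rw [hL2]
    simp only [E_blocks, Set.mem_ofPred_eq]
  rw [hB'] at hB
  obtain ⟨k', t', hkt', -, ht'⟩ := hB
  refine ⟨⟨k, t, hkt⟩, ?_, ?_⟩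
  · have hnsc : nsc (LF e : Set (List Bool)) ≤ k := Nat.sInf_le ⟨t, hkt⟩
    refine hnsc.trans (hk.trans (le_of_eq ?_))
    rw [hcard]
    ring
  · have htc : tc (LF e : Set (List Bool)) ≤ t' := Nat.sInf_le ⟨k', hkt'⟩
    have hne0 : {t | ∃ k, Rec (LF e : Set (List Bool)) k t}.Nonempty := ⟨t, k, hkt⟩
    have h1 : tc (LF e : Set (List Bool)) ∈ {t | ∃ k, Rec (LF e : Set (List Bool)) k t} :=
      Nat.sInf_mem hne0
    have h2 : T (LF e : Set (List Bool)) ∈
        {k | Rec (LF e : Set (List Bool)) k (tc (LF e : Set (List Bool)))} := Nat.sInf_mem h1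
    obtain ⟨Q, hQ, M, hM, hM1, hM2⟩ := h2
    have h3 := lower M (LF e) hM (by rw [card_LF hp he hm]; nlinarith [pow_pos (show 0 < p by omega) 3])
      (4 * m) (fun w hw => by
        obtain ⟨u, v, -, rfl⟩ := mem_LF.1 hw
        unfold wd
        simp only [List.length_append, hm]
        ring) 36 (fun X Y hX hY hXY S hS => rect hp he hm X Y hX hY
          (fun x hx y hy => mem_LF.1 (hXY x hx y hy)) S hS)
    rw [card_LF hp he hm, hM1, hM2] at h3
    have h4 := card_R1 (p := p)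
    have h5 := card_R2 (p := p)
    rw [hcard] at ht'
    have h6 : 3 * p ^ 2 * (4 * m + 1) = 3 * p ^ 2 + 3 * p ^ 2 * (2 * m) + 3 * p ^ 2 * (2 * m) := by
      ring
    omega

end graph

theorem growth (c : ℕ) : ∃ k, 5 ≤ k ∧ c * (8 * k + 18) ≤ 2 ^ k := by
  have h : ∀ t : ℕ, 8 ≤ t → 16 * t + 18 ≤ 2 ^ t := by
    intro t ht
    induction t, ht using Nat.le_induction with
    | base => norm_num
    | succ t ht ih => rw [pow_succ]; omega
  refine ⟨2 * (c + 8), by omega, ?_⟩
  have h1 := h (c + 8) (by omega)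
  have h2 : c ≤ 2 ^ (c + 8) := (by omega : c ≤ c + 8).trans (Nat.lt_two_pow_self).le
  calc c * (8 * (2 * (c + 8)) + 18) = c * (16 * (c + 8) + 18) := by ring
    _ ≤ 2 ^ (c + 8) * 2 ^ (c + 8) := Nat.mul_le_mul h2 h1
    _ = _ := by rw [← pow_add]; congr 1; ring

/-- The negated form of Q1 over the binary alphabet: for every `C` there is a regular (even
finite) language `L` such that every transition-minimal NFA for `L` has more than
`C · nsc(L)` states. -/
theorem result : ∀ C : ℕ, ∃ L : Set (List Bool), (∃ k t, Rec L k t) ∧ C * nsc L < T L := by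
  intro C
  obtain ⟨k, hk, hgr⟩ := growth (36 * C + 1)
  obtain ⟨p, hp, hp1, hp2⟩ := Nat.exists_prime_lt_and_le_two_mul (2 ^ k) (by positivity)
  have : Fact p.Prime := ⟨hp⟩
  have h32 : 2 ^ 5 ≤ 2 ^ k := Nat.pow_le_pow_right (by norm_num) hk
  have hcard : Fintype.card (Vx p) ≤ Fintype.card (Fin (2 * k + 4) → Bool) := by
    simp only [Fintype.card_prod, Fintype.card_fin, ZMod.card, Fintype.card_fun,
      Fintype.card_bool]
    have : p * p ≤ (2 * 2 ^ k) * (2 * 2 ^ k) := Nat.mul_le_mul hp2 hp2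
    have h1 : 2 ^ (2 * k + 4) = 16 * (2 ^ k * 2 ^ k) := by
      rw [pow_add, two_mul, pow_add]; ring
    nlinarith
  obtain ⟨f⟩ := Function.Embedding.nonempty_of_card_le hcard
  have he : Function.Injective fun x : Vx p => List.ofFn (f x) := fun x y h =>
    f.injective (List.ofFn_injective h)
  obtain ⟨h1, h2, h3⟩ := bounds (p := p) (by omega) he (fun x => List.length_ofFn)
    (m := 2 * k + 4) (by omega)
  refine ⟨_, h1, ?_⟩
  set N := nsc (LF (fun x : Vx p => List.ofFn (f x)) : Set (List Bool))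
  set t := T (LF (fun x : Vx p => List.ofFn (f x)) : Set (List Bool))
  have hpp : 1 ≤ 3 * p ^ 2 := by nlinarith
  by_contra hcon
  push Not at hcon
  have h4 : (36 * C + 1) * (8 * k + 18) < p := lt_of_le_of_lt hgr hp1
  have h5 : 36 * t ≤ 36 * (C * (1 + 3 * p ^ 2 * (4 * (2 * k + 4) + 1))) :=
    Nat.mul_le_mul_left _ (hcon.trans (Nat.mul_le_mul_left _ h2))
  have h6 : 1 + 3 * p ^ 2 * (4 * (2 * k + 4) + 1) ≤ 3 * p ^ 2 * (8 * k + 18) := by nlinarith
  have h7 : 36 * (C * (1 + 3 * p ^ 2 * (4 * (2 * k + 4) + 1))) ≤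
      36 * (C * (3 * p ^ 2 * (8 * k + 18))) :=
    Nat.mul_le_mul_left _ (Nat.mul_le_mul_left _ h6)
  have h8 : 3 * p ^ 2 * ((36 * C + 1) * (8 * k + 18)) < 3 * p ^ 2 * p :=
    Nat.mul_lt_mul_of_pos_left h4 hpp
  have h9 : 3 * p ^ 2 * p = 3 * p ^ 3 := by ring
  have h10 : 3 * p ^ 2 * ((36 * C + 1) * (8 * k + 18)) =
      36 * (C * (3 * p ^ 2 * (8 * k + 18))) + 3 * p ^ 2 * (8 * k + 18) := by ring
  have h11 : 3 * p ^ 2 * (4 * (2 * k + 4) + 1) ≤ 3 * p ^ 2 * (8 * k + 18) :=
    Nat.mul_le_mul_left _ (by omega)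
  omega

end Pool.Agent.Results.MP_48fb2a_lc.UnboundedRatio
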